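import Pool.Agent.H90.UD.Count

/-!
# Divide and conquer needs `n ^ (4 / 3)` for unit distances, even if there are none
-/

set_option autoImplicit false

namespace Pool.Agent.Results.MP_31a0d1_lc.DivideAndConquer

open Pool.Agent.H90.UD

/-- There are sets of `n` points in the plane without unit distances such that every cover of
the pairs of distinct points by blocks `A i × B i` decided by `r` comparisons has total size
at least `c n ^ (4 / 3) / (log n) ^ r`. -/
theorem result :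
    ∃ P : ℕ → Finset Plane, (∀ n, (P n).card = n) ∧
      (∀ n, ∀ p ∈ P n, ∀ q ∈ P n, dist p q ≠ 1) ∧
      ∀ r : ℕ, ∃ c : ℝ, 0 < c ∧ ∀ n ≥ 3, ∀ (m : ℕ) (A B : Fin m → Finset Plane),
        (∀ i, Easy r (A i) (B i)) →
        (∀ p ∈ P n, ∀ q ∈ P n, p ≠ q → ∃ i, (p ∈ A i ∧ q ∈ B i) ∨ (q ∈ A i ∧ p ∈ B i)) →
        c * (n : ℝ) ^ (4 / 3 : ℝ) / Real.log n ^ r ≤
          ∑ i, (((A i).card : ℝ) + ((B i).card : ℝ)) :=
  ⟨conf, conf_card, fun _ => no_unit _ _, fun r => ⟨1 / (81 * 5 ^ r), by positivity,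
    fun _ hn _ A B hE hc => final r hn A B hE hc⟩⟩

end Pool.Agent.Results.MP_31a0d1_lc.DivideAndConquer
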