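import Pool.Agent.H31.UE.Fiw
import Pool.Agent.H31.UE.Tre
import Pool.Agent.H31.UE.Conj
import Pool.Agent.H31.UE.Geo
import Pool.Agent.H31.UE.Ann
import Pool.Agent.H31.UE.Sln
import Pool.Agent.H31.UE.Sum
import Pool.Agent.H31.UE.Trl
import Pool.Agent.H31.UE.Mil
import Pool.Agent.H31.UE.Sww
import Pool.Agent.H31.UE.Avl
import Pool.Agent.H31.UE.Upp
import Pool.Agent.H31.UE.Key
import Pool.Agent.H31.UE.Smw

/-!
# Every evenly distributed set is hard in every interval of scales (MP_31a0d1_lc)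
-/

set_option autoImplicit false

namespace Pool.Agent.Results.MP_31a0d1_lc.EveryDenseSet

open Finset Pool.Agent.H31.UE

open Classical in
/-- Let `P` be a finite set of points of the plane with at most `C0` points in every square with
sides parallel to the axes of side `n ^ (-1/2)`, `n = |P|`, and let `[α, β]`, `1/4 ≤ α`, `β ≤ 1`,
`β - α ≥ n ^ (-1/2)`, contain the squared distances of at least `δ (β - α) n ^ 2` ordered pairs. Then
at least `c (β - α) n ^ (2/3)` of the numbers `r = α + j n ^ (-2/3) ≤ β` have the property: every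
cover of the pairs of points of `P` with `r ≤ dist ^ 2 < r + n ^ (-2/3)` by blocks `A i × B i`, on
which the relation `dist ^ 2 < r` is a conjunction of `t i` relations, each decided by a decision
tree of depth `d i + 1`, has `∑ t i (5 log n) ^ (d i) (|A i| + |B i|) ≥ c n ^ (4/3)`. -/
theorem result (C0 : ℕ) (δ : ℝ) (hδ : 0 < δ) : ∃ c : ℝ, 0 < c ∧ ∀ P : Finset (ℝ × ℝ),
    Spread C0 P → ∀ α β : ℝ, 1 / 4 ≤ α → β ≤ 1 → sc P ≤ β - α →
    δ * (β - α) * (P.card : ℝ) ^ 2 ≤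
      ((P ×ˢ P).filter fun z => α ≤ sq z.1 z.2 ∧ sq z.1 z.2 ≤ β).card →
    ∃ J : Finset ℕ, c * (β - α) * (P.card : ℝ) ^ (2 / 3 : ℝ) ≤ J.card ∧
      ∀ j ∈ J, α + j * dc P ≤ β ∧
      ∀ (m : ℕ) (t d : Fin m → ℕ) (A B : Fin m → Finset (ℝ × ℝ)),
      (∀ i, ConjT (α + j * dc P) (t i) (d i) (A i) (B i)) →
      (∀ p ∈ P, ∀ q ∈ P, NearR (α + j * dc P) (dc P) p q →
        ∃ i, (p ∈ A i ∧ q ∈ B i) ∨ (q ∈ A i ∧ p ∈ B i)) →
      c * (P.card : ℝ) ^ (4 / 3 : ℝ) ≤
        ∑ i, (t i : ℝ) * (5 * Real.log P.card) ^ (d i) *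
          (((A i).card : ℝ) + ((B i).card : ℝ)) := by
  obtain ⟨c, hc, h⟩ := sww (fiw (tre con) (trl ann (sln geo) sum_le)
    (mil (trl ann (sln geo) sum_le)) (avl upp)) C0 δ hδ
  refine ⟨min c (1 / 90000), lt_min hc (by norm_num), fun P hP α β hα hβ hαβ hd => ?_⟩
  have hn : 0 ≤ (P.card : ℝ) ^ (4 / 3 : ℝ) := by positivity
  have hn2 : 0 ≤ (P.card : ℝ) ^ (2 / 3 : ℝ) := by positivity
  have hl : 0 ≤ β - α := by
    refine le_trans ?_ hαβ
    unfold sc
    positivity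
  rcases le_or_gt 300 P.card with h300 | h300
  · obtain ⟨J, hJ, h1⟩ := h P h300 hP α β hα hβ hαβ hd
    refine ⟨J, (mul_le_mul_of_nonneg_right (mul_le_mul_of_nonneg_right (min_le_left _ _) hl)
      hn2).trans hJ, fun j hj => ?_⟩
    obtain ⟨h2, h3⟩ := h1 j hj
    exact ⟨h2, fun m t d A B hE hcov =>
      (mul_le_mul_of_nonneg_right (min_le_left _ _) hn).trans (h3 m t d A B hE hcov)⟩
  · obtain ⟨J, hJ, h1⟩ := smallW δ hδ P h300 α β hα hβ hαβ hd
    refine ⟨J, (mul_le_mul_of_nonneg_right (mul_le_mul_of_nonneg_right (min_le_right _ _) hl)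
      hn2).trans hJ, fun j hj => ?_⟩
    obtain ⟨h2, h3⟩ := h1 j hj
    exact ⟨h2, fun m t d A B hE hcov =>
      (mul_le_mul_of_nonneg_right (min_le_right _ _) hn).trans (h3 m t d A B hE hcov)⟩

end Pool.Agent.Results.MP_31a0d1_lc.EveryDenseSet
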