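import Pool.Agent.H31.UC.Lines

/-!
# Points on `k` lines: the order of the cost of divide and conquer is `k n`
-/

set_option autoImplicit false

namespace Pool.Agent.Results.MP_31a0d1_lc.FewLines

open Pool.Agent.H90.UD Pool.Agent.H31.UC

/-- (1) Points on `k` lines have a cover of cost at most `4 k n`. (2) For `k ≥ 1` and `n ≥ 3 k ^ 3`
there are `n` points on `k + 1` lines, no two at distance `1`, each cover of which costs at least
`k n / 12`. (The cost of blocks `A i × B i` on which `dist < 1` is a conjunction of `t i` comparisons is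
the sum of `t i * (|A i| + |B i|)`.) -/
theorem result :
    (∀ (k : ℕ) (P : Finset Plane), OnLines k P → Covers P (4 * (k * P.card))) ∧
    (∀ k n : ℕ, 1 ≤ k → 3 * k ^ 3 ≤ n → ∃ P : Finset Plane, P.card = n ∧ OnLines (k + 1) P ∧
      (∀ p ∈ P, ∀ q ∈ P, dist p q ≠ 1) ∧ ∀ s, Covers P s → k * n ≤ 12 * s) :=
  ⟨few_upper, few_lower⟩

end Pool.Agent.Results.MP_31a0d1_lc.FewLines
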