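import Pool.Agent.H31.UR.Key
import Pool.Agent.H31.UR.Del
import Pool.Agent.H31.UR.Are
import Pool.Agent.H31.UR.LowN
import Pool.Agent.H31.UR.FubN
import Pool.Agent.H31.UR.SpaN
import Pool.Agent.H31.UR.CntN
import Pool.Agent.H31.UR.FinT

/-!
# Divide and conquer needs `n ^ (4 / 3)` for unit distances of random and of perturbed points
-/

set_option autoImplicit false

namespace Pool.Agent.Results.MP_31a0d1_lc.RandomPoints

open MeasureTheory Pool.Agent.H31.UR

/-- The points `p i`, `i < n`, are independent with densities `ρ i ≤ M`. For at least `δ n ^ 2` ordered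
pairs `g` there are `x`, `y` at distance `1` such that `ρ g.1 ≥ m` on the disc of radius `s` about `x`
and `ρ g.2 ≥ m` on the disc of radius `s` about `y`. Then, outside an event of probability at most
`C / n`, for every `r` every cover of all pairs (or only of the pairs whose squared distance is between
`1` and `1 + κ n ^ (-2/3)`) by blocks, each decided by a decision tree of depth `r` whose nodes compare
a function of one point with a function of the other, has total size at least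
`c n ^ (4 / 3) / (5 log n) ^ (r + 1)`. -/
theorem result (M m s δ : ℝ) (hm : 0 < m) (hs : 0 < s) (hδ : 0 < δ) :
    ∃ c κ C : ℝ, 0 < c ∧ 0 < κ ∧ ∀ n : ℕ, 3 ≤ n → ∀ ρ : Fin n → ℝ × ℝ → ENNReal,
      (∀ i, Measurable (ρ i)) → (∀ i, ∫⁻ z, ρ i z = 1) → (∀ i z, ρ i z ≤ ENNReal.ofReal M) →
      ∀ G : Finset (Fin n × Fin n), δ * (n : ℝ) ^ 2 ≤ G.card → (∀ g ∈ G, g.1 ≠ g.2 ∧
        ∃ x y : ℝ × ℝ, (x.1 - y.1) ^ 2 + (x.2 - y.2) ^ 2 = 1 ∧
          (∀ z, (z.1 - x.1) ^ 2 + (z.2 - x.2) ^ 2 < s ^ 2 → ENNReal.ofReal m ≤ ρ g.1 z) ∧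
          (∀ z, (z.1 - y.1) ^ 2 + (z.2 - y.2) ^ 2 < s ^ 2 → ENNReal.ofReal m ≤ ρ g.2 z)) →
      (Measure.pi fun i => volume.withDensity (ρ i))
        {p | ∃ r, CheapT (κ * (n : ℝ) ^ (-(2 / 3) : ℝ)) r
          (c * (n : ℝ) ^ (4 / 3 : ℝ) / (5 * Real.log n) ^ (r + 1)) p} ≤ ENNReal.ofReal (C / n) :=
  mainT (del key) area1 area2 lowN (spaN fubN) (countN fubN) M m s δ hm hs hδ

end Pool.Agent.Results.MP_31a0d1_lc.RandomPoints
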